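import Pool.Agent.TBP.StmtsA

set_option autoImplicit false

/-!
# Squad TBP, row VLB: lower bound for the density
-/

namespace Pool.Agent.TBP.H16

open Finset

theorem exp_le (x : ℝ) (h0 : 0 ≤ x) (h1 : x ≤ 1 / 2) : Real.exp (-(2 * x)) ≤ 1 - x := by
  have h2 : (1 : ℝ) + 2 * x ≤ Real.exp (2 * x) := by
    have := Real.add_one_le_exp (2 * x)
    linarith
  have h3 : 1 ≤ (1 - x) * Real.exp (2 * x) := by
    have h4 : (1 - x) * (1 + 2 * x) ≤ (1 - x) * Real.exp (2 * x) :=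
      mul_le_mul_of_nonneg_left h2 (by linarith)
    nlinarith
  rw [Real.exp_neg, inv_eq_one_div, div_le_iff₀ (Real.exp_pos _)]
  exact h3

theorem kp_le (θ : ℝ) (h1 : θ < 1) (j : ℕ) : (kp θ j : ℝ) ≤ 2 ^ j := by
  unfold kp
  have h2 : (2 : ℝ) ^ (θ * (j : ℝ)) ≤ (2 : ℝ) ^ j := by
    rw [← Real.rpow_natCast]
    apply Real.rpow_le_rpow_of_exponent_le (by norm_num)
    have : (0 : ℝ) ≤ (j : ℝ) := Nat.cast_nonneg j
    nlinarith
  exact (Nat.floor_le (by positivity)).trans h2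

theorem pb_gt {J j p : ℕ} (hj : j < J) (hp : p ∈ pb J j) : 2 ^ J < p := by
  unfold pb at hp
  rw [mem_filter, mem_Ioc] at hp
  refine lt_of_le_of_lt ?_ hp.1.1
  unfold lw
  apply Nat.pow_le_pow_right (by norm_num)
  have : 0 < 2 ^ (J - (j + 1)) := by positivity
  exact Nat.le_mul_of_pos_right J this

theorem blk (θ : ℝ) (h1 : θ < 1) (M : ℝ) (J j : ℕ) (hj : j < J)
    (hM : ∑ p ∈ pb J j, (1 : ℝ) / p ≤ M) :
    Real.exp (-(2 * M * 2 ^ j)) ≤ ∏ p ∈ pb J j, (1 - (kp θ j : ℝ) / p) := by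
  have hk := kp_le θ h1 j
  have hk0 : (0 : ℝ) ≤ (kp θ j : ℝ) := Nat.cast_nonneg _
  have hs0 : (0 : ℝ) ≤ ∑ p ∈ pb J j, (1 : ℝ) / p := sum_nonneg fun p _ => by positivity
  calc Real.exp (-(2 * M * 2 ^ j))
      ≤ Real.exp (∑ p ∈ pb J j, -(2 * ((kp θ j : ℝ) / p))) := by
        apply Real.exp_le_exp.2
        have e : ∑ p ∈ pb J j, -(2 * ((kp θ j : ℝ) / p)) =
            -(2 * (kp θ j : ℝ) * ∑ p ∈ pb J j, (1 : ℝ) / p) := by
          rw [mul_sum, ← sum_neg_distrib]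
          refine sum_congr rfl fun p _ => ?_
          ring
        rw [e]
        have h2 : (kp θ j : ℝ) * ∑ p ∈ pb J j, (1 : ℝ) / p ≤ 2 ^ j * M :=
          mul_le_mul hk hM hs0 (by positivity)
        nlinarith
    _ = ∏ p ∈ pb J j, Real.exp (-(2 * ((kp θ j : ℝ) / p))) := Real.exp_sum _ _
    _ ≤ ∏ p ∈ pb J j, (1 - (kp θ j : ℝ) / p) := by
        refine prod_le_prod (fun p _ => (Real.exp_pos _).le) fun p hp => ?_
        have hp1 := pb_gt hj hp
        have hp2 : ((2 : ℝ) ^ J) < (p : ℝ) := by exact_mod_cast hp1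
        have hp0 : (0 : ℝ) < (p : ℝ) := lt_trans (by positivity) hp2
        refine exp_le _ (by positivity) ?_
        rw [div_le_div_iff₀ hp0 (by norm_num)]
        have h3 : (2 : ℝ) ^ (j + 1) ≤ 2 ^ J := pow_le_pow_right₀ (by norm_num) hj
        rw [pow_succ] at h3
        linarith

theorem vlb (hP : PbmStmt) : VlbStmt := by
  intro θ _ h1
  obtain ⟨M, hM0, hM⟩ := hP
  have hl2 : 0 < Real.log 2 := Real.log_pos (by norm_num)
  refine ⟨⌈2 * M / Real.log 2⌉₊, fun J hJ => ?_⟩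
  have hJ1 : 2 * M ≤ J * Real.log 2 := by
    have h2 : 2 * M / Real.log 2 ≤ (J : ℝ) := (Nat.le_ceil _).trans (by exact_mod_cast hJ)
    rwa [div_le_iff₀ hl2] at h2
  have hgeo : (∑ j ∈ range J, (2 : ℝ) ^ j) ≤ 2 ^ J := by
    have h2 := geom_sum_eq (by norm_num : (2 : ℝ) ≠ 1) J
    rw [h2]
    norm_num
  have hV : Real.exp (-(2 * M * 2 ^ J)) ≤ VV θ J := by
    unfold VV
    calc Real.exp (-(2 * M * 2 ^ J)) ≤ Real.exp (∑ j ∈ range J, -(2 * M * 2 ^ j)) := by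
          apply Real.exp_le_exp.2
          rw [sum_neg_distrib, ← mul_sum]
          have := mul_le_mul_of_nonneg_left hgeo (by linarith : 0 ≤ 2 * M)
          linarith
      _ = ∏ j ∈ range J, Real.exp (-(2 * M * 2 ^ j)) := Real.exp_sum _ _
      _ ≤ ∏ j ∈ range J, ∏ p ∈ pb J j, (1 - (kp θ j : ℝ) / p) :=
          prod_le_prod (fun j _ => (Real.exp_pos _).le)
            (fun j hj => blk θ h1 M J j (mem_range.1 hj) (hM J j (mem_range.1 hj)))
  have hlw : ((lw J 0 : ℕ) : ℝ) = Real.exp (J * 2 ^ J * Real.log 2) := by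
    unfold lw
    have h2 : (((J * 2 ^ (J - 0) : ℕ)) : ℝ) = J * 2 ^ J := by push_cast; simp
    rw [mul_comm (J * 2 ^ J : ℝ) (Real.log 2), ← h2, ← Real.rpow_def_of_pos (by norm_num),
      Real.rpow_natCast]
    push_cast
    rfl
  rw [hlw]
  have h3 : 1 ≤ Real.exp (-(2 * M * 2 ^ J)) * Real.exp (J * 2 ^ J * Real.log 2) := by
    rw [← Real.exp_add]
    apply Real.one_le_exp
    have h4 : (0 : ℝ) < 2 ^ J := by positivity
    nlinarith
  exact h3.trans (mul_le_mul_of_nonneg_right hV (Real.exp_pos _).le)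

end Pool.Agent.TBP.H16
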